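import Pool.Agent.helper78.FS.Spec

namespace Pool.Agent.helper78.FS

open Finset Real
open Classical

noncomputable section

/-- parity of a natural number in `ZMod 2` -/
lemma PSH_parity (n : ℕ) : (n : ZMod 2) = if Odd n then 1 else 0 := by
  split_ifs with h
  · exact (ZMod.natCast_eq_one_iff_odd).2 h
  · exact (ZMod.natCast_eq_zero_iff_even).2 (Nat.not_odd_iff_even.1 h)

/-- the edge indicator -/
def PSHq {V : Type} (x y u v : V) : ZMod 2 := if (u = x ∧ v = y) ∨ (u = y ∧ v = x) then 1 else 0

lemma PSHq_self {V : Type} (x y u : V) (h : x ≠ y) : PSHq x y u u = 0 := by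
  unfold PSHq
  rw [if_neg]
  rintro (⟨h1, h2⟩ | ⟨h1, h2⟩)
  · exact h (h1.symm.trans h2)
  · exact h (h2.symm.trans h1)

lemma PSHq_symm {V : Type} (x y u v : V) : PSHq x y v u = PSHq x y u v := by
  unfold PSHq
  congr 1
  apply propext
  tauto

lemma PSH_two (a : ZMod 2) : a + a = 0 := CharTwo.add_self_eq_zero a

/-- per triangle identity -/
lemma PSH_tri {V : Type} [DecidableEq V] (x y a b c : V) (h : x ≠ y) :
    PSHq x y a b + PSHq x y b c + PSHq x y c a =
      if (({a, b, c} : Finset V).card = 3 ∧ ({x, y} : Finset V) ⊆ {a, b, c}) then 1 else 0 := by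
  by_cases hab : a = b
  · subst hab
    rw [if_neg, PSHq_self _ _ _ h, PSHq_symm x y a c, zero_add, PSH_two]
    rintro ⟨h3, -⟩
    have : ({a, a, c} : Finset V) = {a, c} := by simp
    rw [this] at h3
    have := Finset.card_le_two (a := a) (b := c)
    omega
  by_cases hbc : b = c
  · subst hbc
    rw [if_neg, PSHq_self _ _ _ h, PSHq_symm x y a b, add_zero, PSH_two]
    rintro ⟨h3, -⟩
    have : ({a, b, b} : Finset V) = {a, b} := by simp
    rw [this] at h3
    have := Finset.card_le_two (a := a) (b := b)
    omega
  by_cases hca : c = a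
  · subst hca
    rw [if_neg, PSHq_self _ _ _ h, PSHq_symm x y c b, add_zero, PSH_two]
    rintro ⟨h3, -⟩
    have : ({c, b, c} : Finset V) = {b, c} := by
      ext z; simp
    rw [this] at h3
    have := Finset.card_le_two (a := b) (b := c)
    omega
  have hcard : ({a, b, c} : Finset V).card = 3 :=
    Finset.card_eq_three.2 ⟨a, b, c, hab, fun h => hca h.symm, hbc, rfl⟩
  have hsub : ({x, y} : Finset V) ⊆ {a, b, c} ↔
      (x = a ∨ x = b ∨ x = c) ∧ (y = a ∨ y = b ∨ y = c) := by
    simp [Finset.insert_subset_iff]
  simp only [hsub, hcard, true_and]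
  unfold PSHq
  have hba : ¬ b = a := fun h => hab h.symm
  have hcb : ¬ c = b := fun h => hbc h.symm
  have hac : ¬ a = c := fun h => hca h.symm
  by_cases x1 : x = a
  · subst x1
    have hyx : ¬ y = x := fun h' => h h'.symm
    by_cases y2 : y = b
    · subst y2
      simp [hab, hba, hbc, hcb, hca, hac]
    · by_cases y3 : y = c
      · subst y3
        simp [hab, hba, hbc, hcb, hca, hac]
      · have y2' : ¬ b = y := fun h => y2 h.symm
        have y3' : ¬ c = y := fun h => y3 h.symm
        simp [hab, hba, hbc, hcb, hca, hac, y2, y3, y2', y3', hyx, h]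
  · by_cases x2 : x = b
    · subst x2
      have hyx : ¬ y = x := fun h' => h h'.symm
      by_cases y1 : y = a
      · subst y1
        simp [hab, hba, hbc, hcb, hca, hac]
      · by_cases y3 : y = c
        · subst y3
          simp [hab, hba, hbc, hcb, hca, hac]
        · have y1' : ¬ a = y := fun h => y1 h.symm
          have y3' : ¬ c = y := fun h => y3 h.symm
          simp [hab, hba, hbc, hcb, hca, hac, y1, y3, y1', y3', hyx, h]
    · by_cases x3 : x = c
      · subst x3
        have hyx : ¬ y = x := fun h' => h h'.symm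
        by_cases y1 : y = a
        · subst y1
          simp [hab, hba, hbc, hcb, hca, hac]
        · by_cases y2 : y = b
          · subst y2
            simp [hab, hba, hbc, hcb, hca, hac]
          · have y1' : ¬ a = y := fun h => y1 h.symm
            have y2' : ¬ b = y := fun h => y2 h.symm
            simp [hab, hba, hbc, hcb, hca, hac, y1, y2, y1', y2', hyx, h]
      · have x1' : ¬ a = x := fun h => x1 h.symm
        have x2' : ¬ b = x := fun h => x2 h.symm
        have x3' : ¬ c = x := fun h => x3 h.symm
        simp [x1, x2, x3, x1', x2', x3']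

/-- the parity fibre sum -/
lemma PSH_fib {V ι : Type} [DecidableEq V] [Fintype ι] (T : ι → Finset V) (F : Finset V → ZMod 2)
    (hF : ∀ τ, τ.card ≠ 3 → F τ = 0) :
    ∑ τ ∈ ((univ : Finset ι).image T).filter
      (fun τ => τ.card = 3 ∧ Odd ((univ : Finset ι).filter (fun f => T f = τ)).card), F τ =
    ∑ f, F (T f) := by
  rw [← Finset.sum_fiberwise_of_maps_to (s := (univ : Finset ι)) (t := (univ : Finset ι).image T)
    (g := T) (fun f _ => Finset.mem_image_of_mem T (Finset.mem_univ f)) (fun f => F (T f))]
  rw [Finset.sum_filter]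
  apply Finset.sum_congr rfl
  intro τ _
  have h1 : ∑ f ∈ (univ : Finset ι).filter (fun f => T f = τ), F (T f)
      = ∑ f ∈ (univ : Finset ι).filter (fun f => T f = τ), F τ := by
    apply Finset.sum_congr rfl
    intro f hf
    rw [(Finset.mem_filter.1 hf).2]
  rw [h1, Finset.sum_const, nsmul_eq_mul, PSH_parity]
  by_cases h3 : τ.card = 3
  · by_cases ho : Odd ((univ : Finset ι).filter (fun f => T f = τ)).card
    · rw [if_pos ⟨h3, ho⟩, if_pos ho, one_mul]
    · rw [if_neg (fun h => ho h.2), if_neg ho, zero_mul]
  · rw [if_neg (fun h => h3 h.1), hF τ h3, mul_zero]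

theorem PSH : PSH_stmt := by
  intro hL V ι _ _ G a b c ω hG hω hclo hadj hsum
  set T : ι → Finset V := fun f => {a f, b f, c f} with hT
  refine ⟨((univ : Finset ι).image T).filter
      (fun τ => τ.card = 3 ∧ Odd ((univ : Finset ι).filter (fun f => T f = τ)).card), ⟨?_, ?_⟩, ?_⟩
  · intro τ hτ
    rw [Finset.mem_filter, Finset.mem_image] at hτ
    obtain ⟨⟨f, -, hf⟩, h3, -⟩ := hτ
    refine ⟨h3, ?_⟩
    subst hf
    obtain ⟨g1, g2, g3⟩ := hadj f
    have hab : a f ≠ b f := by
      intro h
      have : T f = {b f, c f} := by simp [hT, h]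
      rw [this] at h3
      have := Finset.card_le_two (a := b f) (b := c f)
      omega
    have hbc : b f ≠ c f := by
      intro h
      have : T f = {a f, c f} := by simp [hT, h]
      rw [this] at h3
      have := Finset.card_le_two (a := a f) (b := c f)
      omega
    have hca : c f ≠ a f := by
      intro h
      have : T f = {b f, a f} := by
        simp only [hT, h]; ext z; simp
      rw [this] at h3
      have := Finset.card_le_two (a := b f) (b := a f)
      omega
    have g1 := g1.resolve_left hab
    have g2 := g2.resolve_left hbc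
    have g3 := g3.resolve_left hca
    intro u hu v hv huv
    simp only [hT, Finset.mem_insert, Finset.mem_singleton] at hu hv
    rcases hu with rfl | rfl | rfl <;> rcases hv with rfl | rfl | rfl
    all_goals first
      | exact absurd rfl huv
      | assumption
      | exact hG _ _ (by assumption)
  · intro e he
    obtain ⟨x, y, hxy, rfl⟩ := Finset.card_eq_two.1 he
    rw [← ZMod.natCast_eq_zero_iff_even, Finset.natCast_card_filter]
    have key := PSH_fib T (fun τ => if (τ.card = 3 ∧ ({x, y} : Finset V) ⊆ τ) then 1 else 0)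
      (by intro τ h; rw [if_neg (fun h' => h h'.1)])
    have h0 := hclo (PSHq x y) (fun u => PSHq_self x y u hxy) (fun u v => PSHq_symm x y u v)
    have h1 : ∑ f, (if ((T f).card = 3 ∧ ({x, y} : Finset V) ⊆ T f) then (1 : ZMod 2) else 0) = 0 := by
      refine Eq.trans ?_ h0
      apply Finset.sum_congr rfl
      intro f _
      exact (PSH_tri x y (a f) (b f) (c f) hxy).symm
    rw [h1] at key
    refine Eq.trans ?_ key
    apply Finset.sum_congr rfl
    intro τ hτ
    have h3 : τ.card = 3 := (Finset.mem_filter.1 hτ).2.1
    simp [h3]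
  · unfold wt
    have key := PSH_fib T (fun τ => if τ.card = 3 then Lft ω τ else 0)
      (by intro τ h; rw [if_neg h])
    have h2 : ∑ f, (if (T f).card = 3 then Lft ω (T f) else 0) = 1 := by
      refine Eq.trans ?_ hsum
      apply Finset.sum_congr rfl
      intro f _
      rw [hT]
      simp only
      rw [hL V ω hω]
      split_ifs with h3
      · rfl
      · by_contra hne
        apply h3
        have hab : a f ≠ b f := by
          intro h
          apply hne
          rw [h, hω.2.2]
        have hbc : b f ≠ c f := by
          intro h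
          apply hne
          rw [h, ← hω.1, ← hω.2.1, hω.2.2]
        have hca : a f ≠ c f := by
          intro h
          apply hne
          rw [h, ← hω.2.1, hω.2.2]
        exact Finset.card_eq_three.2 ⟨a f, b f, c f, hab, hca, hbc, rfl⟩
    rw [h2] at key
    refine Eq.trans ?_ key
    apply Finset.sum_congr rfl
    intro τ hτ
    have h3 : τ.card = 3 := (Finset.mem_filter.1 hτ).2.1
    rw [if_pos h3]

end

end Pool.Agent.helper78.FS
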